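import Pool.Agent.TH839.TU.Cn4

/-!
# Few zeros in a thin cone imply the Lindelöf bound at its apex

Let `π` be a fixed cuspidal representation of `PGL(2)` over a number field `F`, `D ∈ O_F` square-free and
`L(s, π ⊗ χ_D)` the L-function of the twist.  It is classical that the Lindelöf bound at a point `1/2 + iT` follows if
there are only few zeros (`o(log)`) in the rectangles `Re s ≥ 1/2 + δ`, `|Im s - T| ≤ 1` for all `δ > 0` (Backlund).
We show that only the zeros in an arbitrarily thin cone (a triangle) with the apex at `1/2 + iT` and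
horizontal axis have to be considered:

  for all `ϑ > 0` and `ε > 0` there are `r > 0` and `κ > 0` such that
  `|L(1/2 + iT)| ≤ 𝔠(T)^ε`  if `L` has at most `κ log 𝔠(T)` zeros `s` with
  `Re s ≥ 1/2 + r`, `|Im s - T| ≤ ϑ (Re s - 1/2)`

for large analytic conductor `𝔠(T)`.  In particular, if `L(s, π ⊗ χ_D)` has at most `κ log |D|` zeros
very close to the real axis, `Re s ≥ 1/2 + r`, `|Im s| ≤ ϑ (Re s - 1/2)`, then `L(1/2, π ⊗ χ_D) ≪ |D|^ε`.  There is no
condition for all other zeros: they may be at any place outside the thin cone, and there may be many of them.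

The numbers `r`, `κ` and the lower bound for the conductor depend only on `ϑ`, `ε`, the degree and a lower bound for
the real parts of the archimedean parameters.  The theorem is uniform in all such L-functions, and
no bound towards the Ramanujan conjecture and no bound for `L(s)` near the line `Re s = 1` is used.

Proof.  Let `h = (log 𝔠) / 2` and normalise `G(u) = Λ(1/2 + iT + u)` by the gamma factor at the centre.
Then `|G(u)| = e^(h Re u + O(1))` for `3 ≤ Re u ≤ C`, and `|G(u)| ≤ e^(O(h))` for `|u| ≤ C`.  If `G`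
has few zeros in the cone, we divide by them and map the ball conformally onto a truncated cone,
`z ↦ 5 (z / (10 - z))^a`.  The logarithm of `G(u) e^(-hu)` is `O(h)` in the cone (Borel and Carathéodory) and its real part is
`o(h)` near `u = 5`, and so by the three circles theorem it is `o(h)` in the whole (smaller) cone up to the distance `r`
from the apex.  By the functional equation we have `|G(u)| ≤ e^(h |u| + o(h))` also in the reflected cone.  In
the two complementary sectors `S` we only know `|G(u)| ≤ e^(4h)`.  But their opening is less than `π`, and so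
`±Im u` and `±Im u / |u|²` are positive harmonic functions in `S` comparable with `|u|` and `1 / |u|`.  The maximum
principle in `S ∩ {r < |u| < 1}` gives `|G(u)| ≤ exp(h (K |u| + K r / |u| + o(1)))`.  We take `|u| = √r` and get the bound
`exp(h (K' √r + o(1)))` on the whole circle, and so for `G(0)`.

The modules are `Pool.Agent.TH839.TU.Cn1` to `Cn4`.
-/

set_option autoImplicit false

namespace Pool.Agent.TH839.Moved.ThinCone21d687

open scoped ComplexConjugate

/-- The data of an L-function of degree `m` over the rational numbers: the conductor `N`, the order `e` of the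
pole at `s = 1`, the archimedean parameters `mu j` (the factor at infinity is `∏ j, Γ_ℝ (s + mu j)`), the Satake
parameters `α p j` and the completed function `Λ`.  For an L-function of degree `2` over a number field `F` the
degree is `m = 2 [F : ℚ]`. -/
structure Datum (m : ℕ) where
  N : ℝ
  e : ℕ
  mu : Fin m → ℂ
  α : Nat.Primes → Fin m → ℂ
  Λ : ℂ → ℂ

namespace Datum

variable {m : ℕ}

/-- The gamma factor `(s (s - 1))^e N^(s/2) ∏ j, Γ_ℝ (s + mu j)`. -/
noncomputable def gamma (D : Datum m) (s : ℂ) : ℂ :=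
  (s * (s - 1)) ^ D.e * ((D.N : ℂ) ^ (s / 2) * ∏ j, Complex.Gammaℝ (s + D.mu j))

/-- The L-function (without the factors at infinity) `L(s) = Λ(s) / gamma(s)` (used for `Re s ≥ 1/2`,
`Re s ≠ 1` only). -/
noncomputable def L (D : Datum m) (s : ℂ) : ℂ := D.Λ s / D.gamma s

/-- The analytic conductor at height `T`. -/
noncomputable def C (D : Datum m) (T : ℝ) : ℝ := D.N * ∏ j, (1 + ‖(T : ℂ) * Complex.I + D.mu j‖)

/-- The classical properties: `N ≥ 1`, `e ≤ m`, `Re (mu j) ≥ -1/2 + c`, `|α p j| ≤ p^(1/2)`, `Λ` is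
entire of finite order with the functional equation `Λ(1 - s) = w conj Λ(conj s)`, `|w| = 1`, and for large
`Re s` it is the product of `gamma(s)` and the Euler product `L(s) = ∏ p, ∏ j, (1 - α p j p^(-s))⁻¹`. -/
structure Ok (D : Datum m) (c : ℝ) : Prop where
  N_ge : 1 ≤ D.N
  e_le : D.e ≤ m
  mu_re : ∀ j, -1 / 2 + c ≤ (D.mu j).re
  satake : ∀ p j, ‖D.α p j‖ ≤ ((p : ℕ) : ℝ) ^ (1 / 2 : ℝ)
  entire : Differentiable ℂ D.Λ
  order : ∃ B ρ : ℝ, ∀ s : ℂ, ‖D.Λ s‖ ≤ Real.exp (B * (1 + ‖s‖) ^ ρ)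
  fe : ∃ w : ℂ, ‖w‖ = 1 ∧ ∀ s : ℂ, D.Λ (1 - s) = w * conj (D.Λ (conj s))
  euler : ∃ σ : ℝ, ∀ s : ℂ, σ ≤ s.re →
    D.Λ s = D.gamma s * ∏' p : Nat.Primes, ∏ j, (1 - D.α p j * ((p : ℕ) : ℂ) ^ (-s))⁻¹

/-- At most `x` zeros (with multiplicity) in the truncated cone `Re s ≥ 1/2 + r`, `|Im s - T| ≤ ϑ (Re s - 1/2)`. -/
def FewZeros (D : Datum m) (ϑ r x T : ℝ) : Prop := ∀ S : Finset ℂ,
  (∀ s ∈ S, D.Λ s = 0 ∧ 1 / 2 + r ≤ s.re ∧ |s.im - T| ≤ ϑ * (s.re - 1 / 2)) →
    ∑ s ∈ S, (analyticOrderNatAt D.Λ s : ℝ) ≤ x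

end Datum

variable {m : ℕ}

section proofs

open Pool.Agent.TH839.LD Pool.Agent.TH839.SC Pool.Agent.TH839.CN Pool.Agent.TH839.UH.EP

theorem Datum.Ok.hw (hm : 0 < m) {D : Datum m} {c : ℝ} (hc : 0 < c) (h : D.Ok c) :
    HW m D.e D.N D.mu D.α D.Λ := by
  refine ⟨hm, h.e_le, h.N_ge, fun j => ?_, h.satake, h.entire, h.order, ?_, ?_⟩
  · linarith [h.mu_re j]
  · obtain ⟨w, hw, hfe⟩ := h.fe
    refine ⟨w, hw, fun s => ?_⟩
    have := hfe (1 - s)
    rw [sub_sub_cancel, map_sub, map_one] at this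
    exact this
  · obtain ⟨σ, hσ⟩ := h.euler
    refine ⟨σ, fun s hs => ?_⟩
    rw [hσ s hs]
    unfold Datum.gamma E
    rfl

lemma C_eq (D : Datum m) (T : ℝ) : cd D.N D.mu T = D.C T := rfl

lemma C_one {D : Datum m} {c : ℝ} (h : D.Ok c) (T : ℝ) : 1 ≤ D.C T := by
  rw [← C_eq]
  exact one_le_cd h.N_ge _ T

/-- The theorem at any height. -/
theorem local_bound (hm : 0 < m) {c : ℝ} (hc : 0 < c) (ϑ ε : ℝ) (hϑ : 0 < ϑ) (hε : 0 < ε) :
    ∃ r κ X₀ : ℝ, 0 < r ∧ 0 < κ ∧ ∀ (D : Datum m), D.Ok c → ∀ T : ℝ, X₀ ≤ D.C T →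
      D.FewZeros ϑ r (κ * Real.log (D.C T)) T →
      ‖D.L (1 / 2 + (T : ℂ) * Complex.I)‖ ≤ D.C T ^ ε := by
  obtain ⟨r, κ, X₀, hr, hκ, H⟩ := coneF m c ϑ ε hc hϑ hε
  exact ⟨r, κ, X₀, hr, hκ, fun D h T hX hS => H D.e D.N D.mu D.α D.Λ (h.hw hm hc) h.mu_re T hX hS⟩

/-- The central value in terms of a parameter `d` with `𝔠 ≍ d²`. -/
theorem central (hm : 0 < m) {c : ℝ} (hc : 0 < c) (ϑ ε : ℝ) (hϑ : 0 < ϑ) (hε : 0 < ε)
    (K : ℝ) (hK : 1 ≤ K) :
    ∃ r κ d₀ : ℝ, 0 < r ∧ 0 < κ ∧ ∀ (D : Datum m), D.Ok c → ∀ d : ℝ, 0 < d →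
      d ^ 2 / K ≤ D.C 0 → D.C 0 ≤ K * d ^ 2 → d₀ ≤ d →
      D.FewZeros ϑ r (κ * Real.log d) 0 → ‖D.L (1 / 2)‖ ≤ d ^ ε := by
  obtain ⟨r, κ, X₀, hr, hκ, H⟩ := local_bound hm hc ϑ (ε / 4) hϑ (by positivity)
  have hlK : 0 ≤ Real.log K := Real.log_nonneg hK
  refine ⟨r, κ, max (max (max X₀ 1 * K) 1) K, hr, hκ, fun D h d hd c1 c2 hdi hS => ?_⟩
  have hd1 : 1 ≤ d := ((le_max_right _ _).trans (le_max_left _ _)).trans hdi
  have hdX : max X₀ 1 * K ≤ d := ((le_max_left _ _).trans (le_max_left _ _)).trans hdi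
  have hdt : Real.log K ≤ Real.log d := Real.log_le_log (by linarith) ((le_max_right _ _).trans hdi)
  have hl0 : 0 ≤ Real.log d := Real.log_nonneg hd1
  have hCp : 0 < D.C 0 := lt_of_lt_of_le one_pos (C_one h 0)
  have hX : X₀ ≤ D.C 0 := by
    refine le_trans ?_ c1
    rw [le_div_iff₀ (by linarith)]
    have h1 : X₀ * K ≤ max X₀ 1 * K := mul_le_mul_of_nonneg_right (le_max_left _ _) (by linarith)
    have h2 : d * 1 ≤ d * d := mul_le_mul_of_nonneg_left hd1 hd.le
    rw [sq]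
    linarith
  have hlC : Real.log (D.C 0) ≤ Real.log K + 2 * Real.log d := by
    have h1 := Real.log_le_log hCp c2
    rw [Real.log_mul (by positivity) (by positivity), Real.log_pow] at h1
    push_cast at h1
    exact h1
  have hlC2 : Real.log d ≤ Real.log (D.C 0) := by
    have h1 := Real.log_le_log (by positivity) c1
    rw [Real.log_div (by positivity) (by positivity), Real.log_pow] at h1
    push_cast at h1
    linarith
  have R := H D h 0 hX (fun S hS' => (hS S hS').trans (mul_le_mul_of_nonneg_left hlC2 hκ.le))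
  have e1 : (1 / 2 + ((0 : ℝ) : ℂ) * Complex.I : ℂ) = 1 / 2 := by simp
  rw [e1] at R
  refine R.trans ?_
  rw [Real.rpow_def_of_pos hCp, Real.rpow_def_of_pos hd]
  apply Real.exp_le_exp.2
  have h1 : Real.log (D.C 0) * (ε / 4) ≤ (Real.log K + 2 * Real.log d) * (ε / 4) :=
    mul_le_mul_of_nonneg_right hlC (by positivity)
  have h2 : Real.log K * (ε / 4) ≤ Real.log d * (ε / 4) :=
    mul_le_mul_of_nonneg_right hdt (by positivity)
  have h3 : 0 ≤ Real.log d * ε := by positivity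
  linarith

end proofs

/-- **Few zeros in a thin cone imply the Lindelöf bound at its apex.** -/
theorem result (m : ℕ) (c : ℝ) (hm : 0 < m) (hc : 0 < c) (ϑ ε : ℝ) (hϑ : 0 < ϑ) (hε : 0 < ε) :
    (∀ K : ℝ, 1 ≤ K → ∃ r κ d₀ : ℝ, 0 < r ∧ 0 < κ ∧ ∀ D : Datum m, D.Ok c → ∀ d : ℝ, 0 < d →
      d ^ 2 / K ≤ D.C 0 → D.C 0 ≤ K * d ^ 2 → d₀ ≤ d →
      D.FewZeros ϑ r (κ * Real.log d) 0 → ‖D.L (1 / 2)‖ ≤ d ^ ε) ∧
    (∃ r κ X₀ : ℝ, 0 < r ∧ 0 < κ ∧ ∀ D : Datum m, D.Ok c → ∀ T : ℝ, X₀ ≤ D.C T →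
      D.FewZeros ϑ r (κ * Real.log (D.C T)) T →
      ‖D.L (1 / 2 + (T : ℂ) * Complex.I)‖ ≤ D.C T ^ ε) :=
  ⟨fun K hK => central hm hc ϑ ε hϑ hε K hK, local_bound hm hc ϑ ε hϑ hε⟩

end Pool.Agent.TH839.Moved.ThinCone21d687
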